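import Pool.Agent.R590.UWFinal

set_option autoImplicit false

/-!
# Winning the Ulam game does not give a winning strategy in `G*`

Let `μ` be a measurable cardinal and let `κ > μ` be an inaccessible cardinal such that there is no
weakly compact cardinal between `μ` and `κ`. Then Player II has a winning strategy in the Ulam game
of length `γ` on `κ` for every limit ordinal `γ < μ`, but she has no winning strategy in the game
`G*_γ` on `κ` for any of them. For instance `κ` can be the least inaccessible cardinal above `μ`, or
the least weakly compact cardinal above `μ`; so the failure is not only due to the fact that a
winning strategy in the Welch game of length `ω` makes `κ` weakly compact.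

Proof. Player II wins the Ulam game by looking at the intersections of the sets with a subset of
cardinality `μ`. Suppose that she has a winning strategy in `G*_γ`. For each `λ` between `μ` and `κ`
let `c_λ` be a graph on `λ` without cliques and independent sets of cardinality `|λ|`. Player I
plays, in the first `ω` moves, algebras `A_n` generated by the level sets of families `F_n` of `κ`
many functions from `κ` to `κ`, so that the functions needed below are in the next family; they are
computed from the ultrafilter `U_n`. Let `W` be the ultrafilter on the algebra generated by all
`A_n` at the end, and let `f` be a least unbounded function modulo `W` in the union of the families.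
The limit of the graphs `c_{f(x)}` along `W` is a graph on `κ`, which is computed from some `U_n`.
It has a clique or an independent set `H` of cardinality `κ`, since the sets of neighbours of its
points are in the next algebra. For `W`-almost all `x` the set `H ∩ f(x)` is a clique or an
independent set of `c_{f(x)}`, since a bad pair would be constant for `W`-almost all `x`. So
`|H ∩ f(x)| < |f(x)|`, hence this cardinality is bounded, and constant for `W`-almost all `x`; but
`f` is unbounded and `H` has cardinality `κ`.
-/

namespace Pool.Agent.Results.MP_0eb1a9_lc.UlamWithoutStar

open Cardinal Pool.Agent.R590.UW

universe u

/-- Let `μ` be measurable and let `K` be a set of inaccessible cardinality `κ > μ` such that no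
cardinal strictly between `μ` and `κ` is weakly compact. Then for every limit ordinal `γ < μ`
Player II has a winning strategy in the Ulam game of length `γ` on `K`, but none in `G*_γ`. -/
theorem result (μ : Cardinal.{u}) (hμ : IsMeasurable μ) (K : Type u) (hK : (#K).IsInaccessible)
    (hμK : μ < #K) (hno : ∀ ν, μ < ν → ν < #K → ¬ WeaklyCompact ν) (γ : Ordinal.{u})
    (hγ : Order.IsSuccLimit γ) (hγμ : γ < μ.ord) : IIWinsUlam K γ ∧ ¬ IIWinsStar K γ :=
  main μ hμ K hK hμK hno γ hγ hγμ

end Pool.Agent.Results.MP_0eb1a9_lc.UlamWithoutStar
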